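import Mathlib
import Pool.Agent.X147.SqE

set_option autoImplicit false

/-!
# Exponential Riesz bases for the boundary length measure of squares and parallelograms

The one-dimensional Hausdorff measure on the boundary of every parallelogram (in particular of
every square) of the plane admits an exponential Riesz basis. For the unit square one may take the
frequencies `(n, -n)`, `(n, -n + 1/2)`, `(n + 1/2, n + 1)`, `(n + 1/2, n + 1/2)`, `n ∈ ℤ`.
-/

open MeasureTheory Set
open Pool.Agent.X147.Sq

namespace Pool.Agent.Results.MP_9e9244_an.SquareRieszBasis

/-- The arc-length measure on the boundary of every parallelogram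
`{a + s u + t v : 0 ≤ s, t ≤ 1}` (`u, v` linearly independent), in particular of every square,
admits an exponential Riesz basis. -/
theorem result (a u v : EuclideanSpace ℝ (Fin 2)) (h : LinearIndependent ℝ ![u, v]) :
    ∃ Λ : Set (EuclideanSpace ℝ (Fin 2)),
      IsExpRieszBasis
        ((Measure.hausdorffMeasure (1 : ℝ) : Measure (EuclideanSpace ℝ (Fin 2))).restrict
          (frontier {x | ∃ s ∈ Icc (0 : ℝ) 1, ∃ t ∈ Icc (0 : ℝ) 1, x = a + s • u + t • v})) Λ :=
  main a h

end Pool.Agent.Results.MP_9e9244_an.SquareRieszBasis
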